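import Pool.Agent.TH21.MS.H2

/-!
# Values of `j`, `j'` and `j''` at `n` points of curves with rational parameter

The modular Schanuel conjecture with derivatives says in particular that the `3 n` numbers
`j (z_k), j' (z_k), j'' (z_k)` are algebraically independent if `z_1, …, z_n` are algebraic, not CM
points and pairwise inequivalent under `GL_2^+(ℚ)`. We take `z_k = i f_k (q)` with a rational number
`q` and prove for all but a very sparse set of `q` that these `3 n` numbers satisfy no polynomial
relation of bounded degree whose integer coefficients are bounded by a fixed power of the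
denominator bound. There are about `T ^ 2` rational numbers of denominator at most `T` in an
interval; all but `C T ^ β` of them are good, for every `β > 2 - 2 / ((d + 1) ^ (3 n) + 1)`.

The functions `f_k` are real analytic and positive on `[a, ∞)` and have different orders of growth,
`log t ≪ f_1 (t) ≪ f_2 (t) ≪ ⋯`; for instance `f_k (t) = t ^ r_k` with `0 < r_1 < r_2 < ⋯`, so
`z_k = i q ^ r_k`, which are algebraic numbers for rational `r_k`.

Proof: the determinant method of helper818 for relations between values of analytic functions at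
rational points (`Pool.Agent.TH818.AR`). The independence of the functions: the algebraic
independence of `j`, `j'`, `j''` is proved from the invariance of `j` under `τ ↦ -1/τ` alone (used
twice) and the transcendence of the logarithm over germs of meromorphic functions; several points
are treated by lower bounds for all nonzero polynomials near `t = ∞`, by induction on `n`.
-/

set_option autoImplicit false

open Set Filter

namespace Pool.Agent.Results.MP_ede373_nt.AlmostAllWithDerivatives

/-- the normalised Eisenstein series of weight `4` -/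
noncomputable def E4 (τ : ℂ) : ℂ :=
  1 + 240 * ∑' m : ℕ, ((ArithmeticFunction.sigma 3 (m + 1) : ℕ) : ℂ) *
    Complex.exp (2 * (Real.pi : ℂ) * Complex.I * τ) ^ (m + 1)

/-- the normalised Eisenstein series of weight `6` -/
noncomputable def E6 (τ : ℂ) : ℂ :=
  1 - 504 * ∑' m : ℕ, ((ArithmeticFunction.sigma 5 (m + 1) : ℕ) : ℂ) *
    Complex.exp (2 * (Real.pi : ℂ) * Complex.I * τ) ^ (m + 1)

/-- the modular invariant `j = q⁻¹ + 744 + 196884 q + ⋯` -/
noncomputable def j (τ : ℂ) : ℂ := 1728 * E4 τ ^ 3 / (E4 τ ^ 3 - E6 τ ^ 2)

/-- `j (z), j' (z), j'' (z)` (complex derivatives) -/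
noncomputable def jet (z : ℂ) : Fin 3 → ℂ := ![j z, deriv j z, deriv (deriv j) z]

/-- The `3 n` numbers `x_(k,i)` satisfy a nontrivial polynomial relation with integer coefficients of
absolute value at most `H`, of degree at most `d` in each variable. -/
def Related {n : ℕ} (d : ℕ) (H : ℝ) (x : Fin n × Fin 3 → ℂ) : Prop :=
  ∃ P : MvPolynomial (Fin n × Fin 3) ℤ, P ≠ 0 ∧ (∀ p, P.degreeOf p ≤ d) ∧
    (∀ e, |((P.coeff e : ℤ) : ℝ)| ≤ H) ∧ MvPolynomial.aeval x P = 0

/-- The rational numbers `q` in `[a, b]` with denominator at most `T` for which the `3 n` numbers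
`j (z_k), j' (z_k), j'' (z_k)`, `z_k = i f_k (q)`, satisfy a nontrivial polynomial relation of degree
at most `d` in each variable with integer coefficients of absolute value at most `T ^ A`. -/
def Bad {n : ℕ} (f : Fin n → ℝ → ℝ) (d : ℕ) (A a b T : ℝ) : Set ℚ :=
  {q : ℚ | (q : ℝ) ∈ Icc a b ∧ (q.den : ℝ) ≤ T ∧
    Related d (T ^ A) (fun p : Fin n × Fin 3 => jet (Complex.I * (f p.1 q : ℂ)) p.2)}

/-- The number of bad rational numbers is at most `C T ^ β`, for every
`β > 2 - 2 / ((d + 1) ^ (3 n) + 1)`. -/
theorem result (n d : ℕ) (A a b β : ℝ) (hab : a < b)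
    (hβ : 2 - 2 / (((d : ℝ) + 1) ^ (3 * n) + 1) < β) (f : Fin n → ℝ → ℝ)
    (hf : ∀ k, AnalyticOnNhd ℝ (f k) (Ici a)) (hpos : ∀ k, ∀ t, a ≤ t → 0 < f k t)
    (hgrowth0 : ∀ k, Tendsto (fun t => f k t / Real.log t) atTop atTop)
    (hgrowth : ∀ k l, k < l → Tendsto (fun t => f l t / f k t) atTop atTop) :
    ∃ C : ℝ, ∀ T : ℝ, 1 ≤ T →
      (Bad f d A a b T).Finite ∧ ((Bad f d A a b T).ncard : ℝ) ≤ C * T ^ β :=
  Pool.Agent.TH21.MS.jetmain f a hf hpos hgrowth0 hgrowth d A a b le_rfl hab β hβ

end Pool.Agent.Results.MP_ede373_nt.AlmostAllWithDerivatives
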