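import Pool.Agent.TH21.MS.Comp

/-!
# Values of `j`, `j'` and `j''` at several points of comparable height, several rational parameters, with `π`

Let `f_1, …, f_m` be real analytic and positive on `[a, ∞)`, of comparable size (`f_l = O (f_k)` for all `k`, `l`), such
that no nontrivial integer combination `∑ c_k f_k (t)` is `O (log t)` along a sequence tending to infinity. The main
example is `f_k (t) = s_k t` (or `s_k t ^ r`, `r > 0`) with positive real numbers `s_1, …, s_m` which are linearly
independent over `ℚ`; there are many others, like `t`, `t + √t`, `t + t ^ (1/3)`.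

For `n`-tuples `(x_1, …, x_n)` of rational numbers we consider the `m n` points `z = i f_k (x_j)`; for `f_k = s_k t` these
are the points `i s_k x_j`. The modular Schanuel conjecture with derivatives says that the values of `j`, `j'`, `j''` at
algebraic points of the upper half-plane, not CM and pairwise inequivalent under `GL_2^+(ℚ)`, are algebraically
independent. We prove that for almost all `n`-tuples of rational numbers in `[a, b]` the `3 m n + 1` numbers `π` and
`j (z)`, `j' (z)`, `j'' (z)` satisfy no polynomial relation, even approximately, of bounded degree with integer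
coefficients bounded by a fixed power of the bound `T` of the denominators: there are about `T ^ (2 n)` tuples and all
but `C T ^ (2 (n - 1) + β)` of them are good, `β < 2`.

Proof: the determinant method of helper818 (`Pool.Agent.TH818.AP`), and lower bounds near the cusp for polynomials in
the functions `j`, `j'`, `j''` at all points `i f_k (t)` together, from expansions in the variables `exp (-2 π f_k (t))`
and the algebraic independence of `j`, `j'`, `j''` (`Pool.Agent.TH21.MS.BlockC`).
-/

set_option autoImplicit false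

open Set Filter

namespace Pool.Agent.Results.MP_ede373_nt.ComparableGrowth

/-- the normalised Eisenstein series of weight `4` -/
noncomputable def E4 (τ : ℂ) : ℂ :=
  1 + 240 * ∑' m : ℕ, ((ArithmeticFunction.sigma 3 (m + 1) : ℕ) : ℂ) *
    Complex.exp (2 * (Real.pi : ℂ) * Complex.I * τ) ^ (m + 1)

/-- the normalised Eisenstein series of weight `6` -/
noncomputable def E6 (τ : ℂ) : ℂ :=
  1 - 504 * ∑' m : ℕ, ((ArithmeticFunction.sigma 5 (m + 1) : ℕ) : ℂ) *
    Complex.exp (2 * (Real.pi : ℂ) * Complex.I * τ) ^ (m + 1)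

/-- the modular invariant `j = q⁻¹ + 744 + 196884 q + ⋯` -/
noncomputable def j (τ : ℂ) : ℂ := 1728 * E4 τ ^ 3 / (E4 τ ^ 3 - E6 τ ^ 2)

/-- `j (z), j' (z), j'' (z)` (complex derivatives) -/
noncomputable def jet (z : ℂ) : Fin 3 → ℂ := ![j z, deriv j z, deriv (deriv j) z]

/-- the `3 m n + 1` numbers `π` and `j (z), j' (z), j'' (z)` at the points `z = i f_k (x_l)`, `k ≤ m`, `l ≤ n` -/
noncomputable def numbers {m n : ℕ} (f : Fin m → ℝ → ℝ) (x : Fin n → ℚ) (i : Option (Fin n × (Fin m × Fin 3))) : ℂ :=
  i.elim (Real.pi : ℂ) fun q => jet (Complex.I * (f q.2.1 (x q.1) : ℂ)) q.2.2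

/-- The `n`-tuples `x` of rational numbers in `[a, b]` with denominators at most `T` for which some nonzero
polynomial in `3 m n + 1` variables with integer coefficients of absolute value at most `T ^ A`, of degree at most `d`
in each variable, takes at the `3 m n + 1` numbers a value of absolute value at most `T ^ (-B)`. -/
def Exceptional {m : ℕ} (n d : ℕ) (f : Fin m → ℝ → ℝ) (a b A B T : ℝ) : Set (Fin n → ℚ) :=
  {x | (∀ l, (x l : ℝ) ∈ Icc a b ∧ ((x l).den : ℝ) ≤ T) ∧
    ∃ P : MvPolynomial (Option (Fin n × (Fin m × Fin 3))) ℤ, P ≠ 0 ∧ (∀ i, P.degreeOf i ≤ d) ∧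
      (∀ e, |((P.coeff e : ℤ) : ℝ)| ≤ T ^ A) ∧ ‖MvPolynomial.aeval (numbers f x) P‖ ≤ T ^ (-B)}

/-- Let `β > 2 - 2 / ((d + 1)^(3 m n + 1) + 1)`. There are `B` and `C` such that for all `T ≥ 1` the number of
exceptional `n`-tuples is at most `C T^(2(n - 1) + β)`. -/
theorem result (m n d : ℕ) (hn : 1 ≤ n) (A a b β K : ℝ) (hA : 0 ≤ A) (hab : a < b)
    (hβ : 2 - 2 / (((d : ℝ) + 1) ^ (3 * m * n + 1) + 1) < β) (f : Fin m → ℝ → ℝ)
    (hf : ∀ k, AnalyticOnNhd ℝ (f k) (Ici a)) (hpos : ∀ k, ∀ t, a ≤ t → 0 < f k t)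
    (hK : ∀ k l, ∀ᶠ t in atTop, f l t ≤ K * f k t)
    (hH : ∀ c : Fin m → ℤ, c ≠ 0 → Tendsto (fun t => |∑ k, (c k : ℝ) * f k t| / Real.log t) atTop atTop) :
    ∃ B C : ℝ, ∀ T : ℝ, 1 ≤ T → (Exceptional n d f a b A B T).Finite ∧
      ((Exceptional n d f a b A B T).ncard : ℝ) ≤ C * T ^ (2 * ((n : ℝ) - 1) + β) := by
  obtain ⟨B, C, h⟩ := Pool.Agent.TH21.MS.compmain f a hf hpos K hK hH n d hn A a b hA le_rfl hab β hβ
  refine ⟨B, C, fun T hT => ?_⟩
  have hset : Exceptional n d f a b A B T = Pool.Agent.TH21.MS.ExcI n d (Pool.Agent.TH21.MS.uj f)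
      (fun p : Fin m × Fin 3 => Pool.Agent.TH21.MS.sj p.2) a b A B T := by
    ext x
    simp only [Exceptional, Pool.Agent.TH21.MS.ExcI, Set.mem_ofPred_eq]
    refine and_congr_right fun hx => ?_
    have heq : numbers f x = Pool.Agent.TH21.MS.numI (Pool.Agent.TH21.MS.uj f)
        (fun p : Fin m × Fin 3 => Pool.Agent.TH21.MS.sj p.2) x :=
      Pool.Agent.TH21.MS.numC_eq f x fun k l => hpos k _ (hx l).1.1
    rw [heq]
  have := h T hT
  rw [← hset] at this
  exact this

end Pool.Agent.Results.MP_ede373_nt.ComparableGrowth
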